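import Pool.Agent.MP_8be872_ag.H56.Spec
import Pool.Agent.MP_8be872_ag.H71.Dual

/-! The duality transformation in the form of the second specification. -/

namespace Pool.Agent.MP_8be872_ag.H72

open Finset Pool.Agent.MP_8be872_ag

variable {F ι : Type} [Field F] [DecidableEq ι]

theorem rho_eq {q : F} (h m : F) (r : ℕ) (hq : q ≠ 0) (hm : ∀ j : ℕ, q ^ (j + 1) * m ≠ 1) :
    H56.rho q h m r = ∏ j ∈ range r, H38.ee (h / q) (q ^ (j + 1) * m) := by
  refine prod_congr rfl fun j _ => ?_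
  rw [H38.ee, if_neg (hm j)]
  congr 2
  field_simp
  ring

theorem fser_eq {q : F} (h c : F) (hq : q ≠ 0) (hj : ∀ j : ℤ, j ≠ 0 → q ^ j ≠ 1) :
    H56.Fser q h c = H38.fser q (h / q) c := by
  ext k
  rw [H56.Fser, H38.fser, PowerSeries.coeff_mk, PowerSeries.coeff_mk, mul_comm,
    rho_eq h 1 k hq fun j => by
      have := hj ((j + 1 : ℕ) : ℤ) (by omega)
      rwa [zpow_natCast, ← mul_one (q ^ (j + 1))] at this]
  simp only [mul_one]

theorem va_eq {q : F} (h : F) (Y : ι → F) (I C : Finset ι) (hIC : Disjoint I C) (hq : q ≠ 0)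
    (hj : ∀ j : ℤ, j ≠ 0 → q ^ j ≠ 1) (hY : ∀ b ∈ I ∪ C, Y b ≠ 0)
    (hg : ∀ b ∈ I ∪ C, ∀ c ∈ I ∪ C, b ≠ c → ∀ j : ℤ, q ^ j * Y b ≠ Y c) :
    H56.VA q h Y I C = H38.Aser q (h / q) I C Y fun c => (Y c)⁻¹ := by
  ext k
  rw [H56.VA, H38.Aser, PowerSeries.coeff_mk, PowerSeries.coeff_mk]
  refine sum_congr rfl fun δ _ => ?_
  rw [H56.Aterm, H38.term]
  congr 1
  · refine prod_congr rfl fun b hb => prod_congr rfl fun b' hb' => ?_
    have hb0 := hY b (mem_union_left _ hb)
    have hb1 := hY b' (mem_union_left _ hb')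
    rw [rho_eq h _ _ hq, ← prod_range_reflect]
    · refine prod_congr rfl fun l hl => ?_
      congr 1
      obtain ⟨n, hn⟩ := Nat.exists_eq_add_of_lt (mem_range.1 hl)
      rw [zpow_sub₀ hq, zpow_natCast, zpow_natCast, hn,
        show l + n + 1 - 1 - l + 1 = n + 1 by omega]
      field_simp
      ring
    · intro j hh
      rw [← mul_assoc, ← zpow_natCast, ← zpow_add₀ hq, ← mul_div_assoc,
        div_eq_one_iff_eq hb1] at hh
      by_cases e : b = b'
      · subst e
        refine hj _ ?_ (mul_right_cancel₀ hb0 (hh.trans (one_mul _).symm))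
        push_cast
        omega
      · exact hg b (mem_union_left _ hb) b' (mem_union_left _ hb') e _ hh
  · refine prod_congr rfl fun b hb => prod_congr rfl fun c hc => ?_
    have hc0 := hY c (mem_union_right _ hc)
    rw [rho_eq h _ _ hq]
    · refine prod_congr rfl fun l _ => ?_
      rw [mul_comm, div_eq_mul_inv (Y b)]
    · intro j hh
      rw [← zpow_natCast, ← mul_div_assoc, div_eq_one_iff_eq hc0] at hh
      exact hg b (mem_union_left _ hb) c (mem_union_right _ hc)
        (fun e => disjoint_left.1 hIC hb (e ▸ hc)) _ hh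

theorem dual : H56.DualStmt := by
  intro F _ ι _ q h Y I C hIC hq _ hj _ hY hg
  have hg1 : ∀ b ∈ I ∪ C, ∀ c ∈ I ∪ C, b ≠ c → ∀ j : ℤ, q ^ j * Y b ≠ Y c :=
    fun b hb c hc e j => (hg b hb c hc e j).1
  have hg2 : ∀ b ∈ I ∪ C, ∀ c ∈ I ∪ C, b ≠ c → ∀ j : ℤ, q ^ j * (Y b)⁻¹ ≠ (Y c)⁻¹ := by
    intro b hb c hc e j hh
    refine hg1 c hc b hb e.symm j ?_
    have h1 := hY b hb
    have h2 := hY c hc
    field_simp at hh
    linear_combination hh
  rw [va_eq h Y I C hIC hq hj hY hg1, va_eq h (fun b => (Y b)⁻¹) C I hIC.symm hq hj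
    (fun b hb => inv_ne_zero (hY b (union_comm C I ▸ hb)))
    (fun b hb c hc => hg2 b (union_comm C I ▸ hb) c (union_comm C I ▸ hc))]
  simp only [fser_eq h _ hq hj, inv_inv]
  refine H71.dual F ι q (h / q) I C Y (fun c => (Y c)⁻¹) hq
    (fun r hr => by_contra fun e => hj r e hr) (fun a ha => hY a (mem_union_left _ ha))
    (fun a ha => inv_ne_zero (hY a (mem_union_right _ ha)))
    (fun a ha a' ha' r hr => by_contra fun e =>
      hg1 a' (mem_union_left _ ha') a (mem_union_left _ ha) (Ne.symm e) r (by rw [hr, mul_comm]))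
    (fun a ha a' ha' r hr => by_contra fun e =>
      hg2 a' (mem_union_right _ ha') a (mem_union_right _ ha) (Ne.symm e) r
        (by rw [mul_comm]; exact hr.symm))
    fun a ha c hc r hr => ?_
  refine hg1 a (mem_union_left _ ha) c (mem_union_right _ hc)
    (fun e => disjoint_left.1 hIC ha (e ▸ hc)) r ?_
  have h2 := hY c (mem_union_right _ hc)
  field_simp at hr
  linear_combination hr

end Pool.Agent.MP_8be872_ag.H72
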